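import Mathlib

set_option autoImplicit false

/-!
# Fréchet algebras, Fréchet modules and (relatively) injective Fréchet modules
-/

namespace Pool.Agent.Helper21K9.Frechet

universe u

/-- A complex Fréchet space: a complex vector space with a uniform structure making it a
topological vector space which is locally convex, complete and metrizable. -/
class FrechetSpace (X : Type*) [AddCommGroup X] [Module ℂ X] [UniformSpace X] : Prop extends
    IsUniformAddGroup X, ContinuousSMul ℂ X, LocallyConvexSpace ℝ X, CompleteSpace X,
    TopologicalSpace.MetrizableSpace X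

/-- A complex Fréchet algebra: a Fréchet space with an associative bilinear multiplication (no unit
is required) which is jointly continuous. -/
class FrechetAlgebra (A : Type*) [NonUnitalRing A] [Module ℂ A] [UniformSpace A] : Prop extends
    FrechetSpace A, IsScalarTower ℂ A A, SMulCommClass ℂ A A, ContinuousMul A

/-- A Fréchet (left) `A`-module structure on `X`: a jointly continuous bilinear action
`A × X → X` with `(ab)x = a(bx)`. -/
structure FrechetModule (A : Type*) [NonUnitalRing A] [Module ℂ A] [UniformSpace A]
    (X : Type*) [AddCommGroup X] [Module ℂ X] [UniformSpace X] where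
  /-- the action, a bilinear map -/
  act : A →ₗ[ℂ] X →ₗ[ℂ] X
  mul_act : ∀ a b x, act (a * b) x = act a (act b x)
  continuous_act : Continuous fun q : A × X => act q.1 q.2

section

variable {A : Type*} [NonUnitalRing A] [Module ℂ A] [UniformSpace A]
variable {X : Type*} [AddCommGroup X] [Module ℂ X] [UniformSpace X]
variable {Y : Type*} [AddCommGroup Y] [Module ℂ Y] [UniformSpace Y]

/-- `φ` is a morphism of Fréchet `A`-modules (a continuous linear map commuting with `A`). -/
def IsMorphism (M : FrechetModule A X) (N : FrechetModule A Y) (φ : X →L[ℂ] Y) : Prop :=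
  ∀ a x, φ (M.act a x) = N.act a (φ x)

end

/-- A Fréchet `A`-module `X` is injective if every morphism `φ : X → Y` of Fréchet `A`-modules
which has a continuous linear left inverse has a left inverse which is a morphism of Fréchet
`A`-modules. -/
def IsInjective {A : Type*} [NonUnitalRing A] [Module ℂ A] [UniformSpace A]
    {X : Type u} [AddCommGroup X] [Module ℂ X] [UniformSpace X] (M : FrechetModule A X) : Prop :=
  ∀ (Y : Type u) [AddCommGroup Y] [Module ℂ Y] [UniformSpace Y] [FrechetSpace Y]
    (N : FrechetModule A Y) (φ : X →L[ℂ] Y), IsMorphism M N φ →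
    (∃ ψ : Y →L[ℂ] X, ∀ x, ψ (φ x) = x) →
    ∃ ψ : Y →L[ℂ] X, IsMorphism N M ψ ∧ ∀ x, ψ (φ x) = x

/-- A module over an algebra with unit is unital if `1 x = x` for all `x`. -/
def IsUnital {A : Type*} [Ring A] [Module ℂ A] [UniformSpace A]
    {X : Type*} [AddCommGroup X] [Module ℂ X] [UniformSpace X] (M : FrechetModule A X) : Prop :=
  ∀ x, M.act 1 x = x

/-- Injectivity in the category of unital Fréchet modules over an algebra with unit. -/
def IsInjectiveUnital {A : Type*} [Ring A] [Module ℂ A] [UniformSpace A]
    {X : Type u} [AddCommGroup X] [Module ℂ X] [UniformSpace X] (M : FrechetModule A X) : Prop :=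
  IsUnital M ∧
  ∀ (Y : Type u) [AddCommGroup Y] [Module ℂ Y] [UniformSpace Y] [FrechetSpace Y]
    (N : FrechetModule A Y), IsUnital N → ∀ φ : X →L[ℂ] Y, IsMorphism M N φ →
    (∃ ψ : Y →L[ℂ] X, ∀ x, ψ (φ x) = x) →
    ∃ ψ : Y →L[ℂ] X, IsMorphism N M ψ ∧ ∀ x, ψ (φ x) = x

/-- The kernel of a character, a non-unital subalgebra. -/
def kerChar {A : Type*} [Ring A] [Algebra ℂ A] (χ : A →ₐ[ℂ] ℂ) : NonUnitalSubalgebra ℂ A where
  carrier := {a | χ a = 0}
  add_mem' {a b} ha hb := by
    change χ (a + b) = 0
    rw [map_add, show χ a = 0 from ha, show χ b = 0 from hb, add_zero]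
  zero_mem' := map_zero χ
  mul_mem' {a b} ha hb := by
    change χ (a * b) = 0
    rw [map_mul, show χ a = 0 from ha, zero_mul]
  smul_mem' c a ha := by
    change χ (c • a) = 0
    rw [map_smul, show χ a = 0 from ha, smul_zero]

end Pool.Agent.Helper21K9.Frechet
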