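import Pool.Agent.Helper21K9.Frechet.Defs

set_option autoImplicit false

namespace Pool.Agent.Helper21K9.Frechet

universe u

instance frechetSpace_complex : FrechetSpace ℂ where

instance frechetSpace_prod {X Z : Type*} [AddCommGroup X] [Module ℂ X] [UniformSpace X]
    [AddCommGroup Z] [Module ℂ Z] [UniformSpace Z] [FrechetSpace X] [FrechetSpace Z] :
    FrechetSpace (X × Z) where
  toIsUniformAddGroup := inferInstance
  toContinuousSMul := inferInstance
  toLocallyConvexSpace := inferInstance
  toCompleteSpace := inferInstance
  toMetrizableSpace := inferInstance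

section

variable {A : Type*} [NonUnitalRing A] [Module ℂ A] [UniformSpace A]
variable {X : Type*} [AddCommGroup X] [Module ℂ X] [UniformSpace X] [FrechetSpace X]
variable {Z : Type*} [AddCommGroup Z] [Module ℂ Z] [UniformSpace Z] [FrechetSpace Z]

/-- The extension of `Z` by `X` given by the cocycle `B`. -/
def ext (M : FrechetModule A X) (N : FrechetModule A Z) (B : A →ₗ[ℂ] Z →ₗ[ℂ] X)
    (hB : ∀ f g z, B (f * g) z = M.act f (B g z) + B f (N.act g z))
    (hc : Continuous fun q : A × Z => B q.1 q.2) : FrechetModule A (X × Z) where
  act := LinearMap.mk₂ ℂ (fun f y => (M.act f y.1 + B f y.2, N.act f y.2))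
    (by
      intro f g y
      ext
      · simp only [map_add, LinearMap.add_apply, Prod.fst_add]; abel
      · simp only [map_add, LinearMap.add_apply, Prod.snd_add])
    (by
      intro c f y
      ext
      · simp only [map_smul, LinearMap.smul_apply, Prod.smul_fst, smul_add]
      · simp only [map_smul, LinearMap.smul_apply, Prod.smul_snd])
    (by
      intro f y z
      ext
      · simp only [map_add, Prod.fst_add, Prod.snd_add]; abel
      · simp only [map_add, Prod.snd_add])
    (by
      intro c f y
      ext
      · simp only [map_smul, Prod.smul_fst, Prod.smul_snd, smul_add]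
      · simp only [map_smul, Prod.smul_snd])
  mul_act f g y := by
    simp only [LinearMap.mk₂_apply]
    ext
    · simp only [map_add, hB, M.mul_act]; abel
    · simp only [N.mul_act]
  continuous_act := by
    simp only [LinearMap.mk₂_apply]
    have h1 : Continuous fun q : A × (X × Z) => M.act q.1 q.2.1 :=
      M.continuous_act.comp (continuous_fst.prodMk (continuous_fst.comp continuous_snd))
    have h2 : Continuous fun q : A × (X × Z) => B q.1 q.2.2 :=
      hc.comp (continuous_fst.prodMk (continuous_snd.comp continuous_snd))
    have h3 : Continuous fun q : A × (X × Z) => N.act q.1 q.2.2 :=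
      N.continuous_act.comp (continuous_fst.prodMk (continuous_snd.comp continuous_snd))
    exact (h1.add h2).prodMk h3

@[simp] lemma ext_act (M : FrechetModule A X) (N : FrechetModule A Z) (B : A →ₗ[ℂ] Z →ₗ[ℂ] X)
    (hB : ∀ f g z, B (f * g) z = M.act f (B g z) + B f (N.act g z))
    (hc : Continuous fun q : A × Z => B q.1 q.2) (f : A) (y : X × Z) :
    (ext M N B hB hc).act f y = (M.act f y.1 + B f y.2, N.act f y.2) := rfl

end

/-- If `X` is an injective unital module then every cocycle `A × Z → X` is a coboundary. -/
theorem exists_phi {A : Type*} [Ring A] [Module ℂ A] [UniformSpace A]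
    {X : Type u} [AddCommGroup X] [Module ℂ X] [UniformSpace X] [FrechetSpace X]
    {Z : Type} [AddCommGroup Z] [Module ℂ Z] [UniformSpace Z] [FrechetSpace Z]
    (M : FrechetModule A X) (hM : IsInjectiveUnital M)
    (N : FrechetModule A Z) (hN : IsUnital N) (B : A →ₗ[ℂ] Z →ₗ[ℂ] X)
    (hB : ∀ f g z, B (f * g) z = M.act f (B g z) + B f (N.act g z))
    (hc : Continuous fun q : A × Z => B q.1 q.2) :
    ∃ φ : Z →L[ℂ] X, ∀ f z, M.act f (φ z) = B f z + φ (N.act f z) := by
  have hB1 : ∀ z, B 1 z = 0 := by
    intro z
    have h := hB 1 1 z
    rw [mul_one, hN, hM.1] at h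
    simpa using h
  obtain ⟨ψ, hψ, hψ'⟩ := hM.2 (X × Z) (ext M N B hB hc) (by
      intro y
      rw [ext_act, hM.1, hN, hB1, add_zero]) (ContinuousLinearMap.inl ℂ X Z) (by
      intro f x
      simp) ⟨ContinuousLinearMap.fst ℂ X Z, fun x => by simp⟩
  refine ⟨ψ.comp (ContinuousLinearMap.inr ℂ X Z), fun f z => ?_⟩
  have h := hψ f (0, z)
  rw [ext_act] at h
  simp only [map_zero, zero_add] at h
  have e : (B f z, N.act f z) = ((B f z, 0) : X × Z) + (0, N.act f z) := by simp
  rw [e, map_add] at h
  have h2 := hψ' (B f z)
  rw [ContinuousLinearMap.inl_apply] at h2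
  rw [h2] at h
  simp only [ContinuousLinearMap.comp_apply, ContinuousLinearMap.inr_apply]
  exact h.symm

section kernel

variable {A : Type*} [Ring A] [Algebra ℂ A] [UniformSpace A] [FrechetAlgebra A]
  (χ : A →ₐ[ℂ] ℂ) (hχ : Continuous χ)

lemma mem_kerChar {a : A} : a ∈ kerChar χ ↔ χ a = 0 := Iff.rfl

include hχ in
lemma frechetAlgebra_kerChar : FrechetAlgebra (kerChar χ) where
  toIsUniformAddGroup := by
    have : IsUniformAddGroup (kerChar χ).toSubmodule.toAddSubgroup := inferInstance
    exact this
  toContinuousSMul := by
    have : ContinuousSMul ℂ (kerChar χ).toSubmodule := inferInstance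
    exact this
  toLocallyConvexSpace := by
    have : LocallyConvexSpace ℝ ((kerChar χ).toSubmodule.restrictScalars ℝ) := inferInstance
    exact this
  toCompleteSpace := by
    have : IsClosed ((kerChar χ : Set A)) := isClosed_singleton.preimage hχ
    exact this.completeSpace_coe
  toMetrizableSpace := by
    have : TopologicalSpace.MetrizableSpace (kerChar χ : Set A) := inferInstance
    exact this
  toIsScalarTower := inferInstance
  toSMulCommClass := inferInstance
  toContinuousMul := by
    have h : Continuous (fun a : kerChar χ => (a : A)) := continuous_subtype_val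
    refine ⟨Continuous.subtype_mk ?_ _⟩
    exact (h.comp continuous_fst).mul (h.comp continuous_snd)

/-- the projection `a ↦ a - χ(a) 1` onto the kernel of the character -/
noncomputable def projKer : A →ₗ[ℂ] kerChar χ where
  toFun a := ⟨a - χ a • (1 : A), by
    rw [mem_kerChar, map_sub, map_smul, map_one, smul_eq_mul, mul_one, sub_self]⟩
  map_add' a b := by
    ext
    simp only [map_add, add_smul, NonUnitalSubalgebra.coe_add]
    abel
  map_smul' c a := by
    ext
    simp only [map_smul, RingHom.id_apply, NonUnitalSubalgebra.coe_smul, smul_sub, smul_eq_mul,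
      mul_smul]

lemma projKer_coe (a : A) : (projKer χ a : A) = a - χ a • (1 : A) := rfl

include hχ in
lemma continuous_projKer : Continuous (projKer χ) := by
  refine Continuous.subtype_mk ?_ _
  exact continuous_id.sub (hχ.smul continuous_const)

variable {X : Type*} [AddCommGroup X] [Module ℂ X] [UniformSpace X] [FrechetSpace X]

/-- The unital `A`-module defined by a module over the kernel of a character. -/
noncomputable def toUnital (M : FrechetModule (kerChar χ) X) : FrechetModule A X where
  act := χ.toLinearMap.smulRight (LinearMap.id : X →ₗ[ℂ] X) + M.act.comp (projKer χ)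
  mul_act a b x := by
    simp only [LinearMap.add_apply, LinearMap.smulRight_apply, AlgHom.toLinearMap_apply,
      LinearMap.smul_apply, LinearMap.id_apply, LinearMap.comp_apply, map_add, map_smul, map_mul]
    rw [← M.mul_act]
    have e : projKer χ (a * b) = χ a • projKer χ b + χ b • projKer χ a
        + projKer χ a * projKer χ b := by
      ext
      simp only [projKer_coe, map_mul, NonUnitalSubalgebra.coe_add, NonUnitalSubalgebra.coe_smul,
        NonUnitalSubalgebra.coe_mul, mul_sub, sub_mul, smul_sub, mul_smul_comm, smul_mul_assoc,
        mul_one, one_mul, mul_smul]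
      rw [smul_comm (χ b) (χ a) (1 : A)]
      abel
    rw [e, map_add, map_add, map_smul, map_smul]
    simp only [LinearMap.add_apply, LinearMap.smul_apply, mul_smul, smul_add]
    rw [smul_comm (χ b) (χ a) x]
    abel
  continuous_act := by
    have h1 : Continuous fun q : A × X => χ q.1 • q.2 :=
      (hχ.comp continuous_fst).smul continuous_snd
    have h2 : Continuous fun q : A × X => M.act (projKer χ q.1) q.2 :=
      M.continuous_act.comp
        (((continuous_projKer χ hχ).comp continuous_fst).prodMk continuous_snd)
    exact h1.add h2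

lemma toUnital_act (M : FrechetModule (kerChar χ) X) (a : A) (x : X) :
    (toUnital χ hχ M).act a x = χ a • x + M.act (projKer χ a) x := rfl

lemma toUnital_unital (M : FrechetModule (kerChar χ) X) : IsUnital (toUnital χ hχ M) := by
  intro x
  have h : projKer χ 1 = 0 := by
    ext
    rw [projKer_coe, map_one, one_smul, sub_self]
    rfl
  rw [toUnital_act, h, map_one, map_zero, one_smul, LinearMap.zero_apply, add_zero]

/-- The restriction of a module to the kernel of a character. -/
def restr {X : Type*} [AddCommGroup X] [Module ℂ X] [UniformSpace X]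
    (N : FrechetModule A X) : FrechetModule (kerChar χ) X where
  act :=
    { toFun := fun a => N.act (a : A)
      map_add' := fun a b => by
        rw [NonUnitalSubalgebra.coe_add, map_add]
      map_smul' := fun c a => by
        rw [NonUnitalSubalgebra.coe_smul, map_smul, RingHom.id_apply] }
  mul_act a b x := N.mul_act a b x
  continuous_act :=
    N.continuous_act.comp ((continuous_subtype_val.comp continuous_fst).prodMk continuous_snd)

lemma restr_act {X : Type*} [AddCommGroup X] [Module ℂ X] [UniformSpace X]
    (N : FrechetModule A X) (a : kerChar χ) (x : X) : (restr χ N).act a x = N.act (a : A) x := rfl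

end kernel

/-- If no non-zero unital `A`-module is injective among unital modules, then no non-zero module
over the kernel of a character is injective. -/
theorem kernel_injective {A : Type*} [Ring A] [Algebra ℂ A] [UniformSpace A] [FrechetAlgebra A]
    (χ : A →ₐ[ℂ] ℂ) (hχ : Continuous χ)
    {X : Type u} [AddCommGroup X] [Module ℂ X] [UniformSpace X] [FrechetSpace X]
    (M : FrechetModule (kerChar χ) X) (hM : IsInjective M) :
    IsInjectiveUnital (toUnital χ hχ M) := by
  refine ⟨toUnital_unital χ hχ M, ?_⟩
  intro Y _ _ _ _ N hN φ hφ hφ'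
  have hdec : ∀ a : A, a = χ a • (1 : A) + (projKer χ a : A) := by
    intro a
    rw [projKer_coe]
    abel
  have hproj : ∀ a : kerChar χ, projKer χ (a : A) = a := by
    intro a
    ext
    rw [projKer_coe, (mem_kerChar χ).1 a.2, zero_smul, sub_zero]
  have hNact : ∀ a y, N.act a y = χ a • y + N.act (projKer χ a : A) y := by
    intro a y
    conv_lhs => rw [hdec a]
    rw [map_add, map_smul, LinearMap.add_apply, LinearMap.smul_apply, hN]
  obtain ⟨ψ, hψ, hψ'⟩ := hM Y (restr χ N) φ (by
    intro a x
    have h := hφ (a : A) x
    rw [toUnital_act, (mem_kerChar χ).1 a.2, zero_smul, zero_add, hproj] at h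
    rw [restr_act]
    exact h) hφ'
  refine ⟨ψ, ?_, hψ'⟩
  intro a y
  rw [hNact, map_add, map_smul, toUnital_act]
  congr 1
  exact hψ (projKer χ a) y

end Pool.Agent.Helper21K9.Frechet
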